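import Pool.Agent.Helper98.GX.St3
import Pool.Agent.Helper53.CX.M_Ext
import Pool.Agent.Helper53.CX.M_Mon
import Pool.Agent.Helper53.CX.M_Pad

/-!
# Project GX (MP_140278_ag): module PRI, prime divisors at infinity are monomial valuations
-/

set_option autoImplicit false

open scoped BigOperators
open MvPolynomial

namespace Pool.Agent.Helper18.GX

open Pool.Agent.Helper98.GX
open Pool.Agent.Helper53.CX (DivVal LinSys IsNefCartier Pn Kn x monOrd monO padOrd extOrd wt
  hExt hMon hPad)

private theorem PRI_aeval {K : Type} [Field K] [Algebra ℂ K] {n : ℕ} (σ : Kn n ≃ₐ[ℂ] K)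
    (z : Fin n → K) (h : ∀ j, σ (x j) = z j) (p : Pn n) :
    σ (algebraMap (Pn n) (Kn n) p) = aeval z p := by
  have h1 : (σ : Kn n →ₐ[ℂ] K).comp (IsScalarTower.toAlgHom ℂ (Pn n) (Kn n)) = aeval z := by
    apply MvPolynomial.algHom_ext
    intro i
    simpa [x] using h i
  have := congrArg (fun φ => φ p) h1
  simpa using this

private theorem PRI_one {K : Type} [Field K] [Algebra ℂ K] (v : DivVal K) : v.ord 1 = 0 := by
  have := v.ord_mul 1 1 one_ne_zero one_ne_zero
  rw [mul_one] at this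
  linarith

private theorem PRI_div {K : Type} [Field K] [Algebra ℂ K] (v : DivVal K) {f g : K}
    (hf : f ≠ 0) (hg : g ≠ 0) : v.ord (f / g) = v.ord f - v.ord g := by
  have := v.ord_mul (f / g) g (div_ne_zero hf hg) hg
  rw [div_mul_cancel₀ _ hg] at this
  linarith

private theorem PRI_pow {K : Type} [Field K] [Algebra ℂ K] (v : DivVal K) {f : K}
    (hf : f ≠ 0) (m : ℕ) : v.ord (f ^ m) = m * v.ord f := by
  induction m with
  | zero => simp [PRI_one]
  | succ m ih =>
    rw [pow_succ, v.ord_mul _ _ (pow_ne_zero _ hf) hf, ih]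
    push_cast
    ring

private theorem PRI_zpow {K : Type} [Field K] [Algebra ℂ K] (v : DivVal K) {f : K}
    (hf : f ≠ 0) (m : ℤ) : v.ord (f ^ m) = m * v.ord f := by
  obtain ⟨a, b, rfl⟩ : ∃ a b : ℕ, m = (a : ℤ) - b := ⟨m.toNat, (-m).toNat, by omega⟩
  rw [zpow_sub₀ hf, zpow_natCast, zpow_natCast, PRI_div v (pow_ne_zero _ hf) (pow_ne_zero _ hf),
    PRI_pow v hf, PRI_pow v hf]
  ring

private theorem PRI_zsum {K : Type} [Field K] {ι : Type} {T : K} (hT : T ≠ 0) (s : Finset ι)
    (f : ι → ℤ) : T ^ (∑ i ∈ s, f i) = ∏ i ∈ s, T ^ (f i) := by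
  classical
  induction s using Finset.induction_on with
  | empty => simp
  | insert a s ha ih => rw [Finset.sum_insert ha, Finset.prod_insert ha, zpow_add₀ hT, ih]

/-- a change of coordinates by a permutation and a power of one coordinate -/
private theorem PRI_core {K : Type} [Field K] [Algebra ℂ K] {n : ℕ} (z z' : Fin n → K)
    (j0 j1 : Fin n) (τ : Equiv.Perm (Fin n)) (hτ : τ j0 = j1) (w : Fin n → ℤ) (hw : w j0 = -1)
    (hT : z' j1 ≠ 0) (hz : ∀ j, z j = (if j = j0 then 1 else z' (τ j)) * z' j1 ^ (w j))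
    (p : Pn n) (hp : p ≠ 0) :
    ∃ G : Pn n, ¬ (X j1 : Pn n) ∣ G ∧ aeval z p = z' j1 ^ (monO w p) * aeval z' G := by
  classical
  have hne : p.support.Nonempty := by
    rw [Finset.nonempty_iff_ne_empty]
    intro h
    exact hp (MvPolynomial.support_eq_empty.1 h)
  have hW : monO w p = p.support.inf' hne (wt w) := by
    unfold monO
    rw [dif_pos hne]
  set W := monO w p with hWdef
  have hWle : ∀ m ∈ p.support, W ≤ wt w m := by
    intro m hm
    rw [hW]
    exact Finset.inf'_le _ hm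
  obtain ⟨m0, hm0, hm0W⟩ : ∃ m ∈ p.support, wt w m = W := by
    obtain ⟨m, hm, he⟩ := Finset.exists_mem_eq_inf' hne (wt w)
    exact ⟨m, hm, by rw [hW, he]⟩
  let φ : (Fin n →₀ ℕ) → (Fin n →₀ ℕ) := fun α => Finsupp.equivFunOnFinite.symm
    (fun i => if i = j1 then (wt w α - W).toNat else α (τ.symm i))
  have hφ : ∀ α i, φ α i = if i = j1 then (wt w α - W).toNat else α (τ.symm i) :=
    fun α i => rfl
  refine ⟨∑ α ∈ p.support, monomial (φ α) (p.coeff α), ?_, ?_⟩
  · intro hdiv
    have hc : (∑ α ∈ p.support, monomial (φ α) (p.coeff α) : Pn n).coeff (φ m0)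
        = p.coeff m0 := by
      rw [MvPolynomial.coeff_sum, Finset.sum_eq_single m0]
      · rw [coeff_monomial, if_pos rfl]
      · intro α hα hne'
        rw [coeff_monomial, if_neg]
        intro heq
        apply hne'
        have h1 : ∀ j, j ≠ j0 → α j = m0 j := by
          intro j hj
          have h5 : τ j ≠ j1 := by
            rw [← hτ]
            exact fun h => hj (τ.injective h)
          have := DFunLike.congr_fun heq (τ j)
          rw [hφ, hφ, if_neg h5, if_neg h5, τ.symm_apply_apply] at this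
          exact this
        have h2 : wt w α = W := by
          have h6 := DFunLike.congr_fun heq j1
          rw [hφ, hφ, if_pos rfl, if_pos rfl, hm0W, sub_self, Int.toNat_zero] at h6
          have h7 := hWle α hα
          omega
        have h3 : α j0 = m0 j0 := by
          have h4 : wt w α - wt w m0 = 0 := by rw [h2, hm0W]; ring
          unfold wt at h4
          rw [← Finset.sum_sub_distrib, Finset.sum_eq_single j0] at h4
          · rw [hw] at h4
            omega
          · intro j _ hj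
            rw [h1 j hj, sub_self]
          · intro h
            exact absurd (Finset.mem_univ _) h
        ext j
        by_cases hj : j = j0
        · rw [hj, h3]
        · exact h1 j hj
      · intro h
        exact absurd hm0 h
    obtain ⟨R, hR⟩ := hdiv
    rw [hR, coeff_X_mul', if_neg] at hc
    · exact (mem_support_iff.1 hm0) hc.symm
    · rw [Finsupp.mem_support_iff, not_not, hφ, if_pos rfl, hm0W, sub_self, Int.toNat_zero]
  · rw [aeval_def, eval₂_eq', map_sum, Finset.mul_sum]
    apply Finset.sum_congr rfl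
    intro α hα
    rw [aeval_monomial, Finsupp.prod_fintype _ _ (fun _ => pow_zero _)]
    have key : ∏ j, z j ^ α j = z' j1 ^ W * ∏ i, z' i ^ (φ α i) := by
      have k1 : ∏ j, z j ^ α j
          = (∏ j, (if j = j0 then (1 : K) else z' (τ j)) ^ α j) * z' j1 ^ (wt w α) := by
        have k2 : z' j1 ^ (wt w α) = ∏ j, (z' j1 ^ (w j)) ^ α j := by
          unfold wt
          rw [PRI_zsum hT]
          apply Finset.prod_congr rfl
          intro j _
          rw [zpow_mul, zpow_natCast]
        rw [k2, ← Finset.prod_mul_distrib]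
        apply Finset.prod_congr rfl
        intro j _
        rw [hz j, mul_pow]
      have k3 : ∏ j, (if j = j0 then (1 : K) else z' (τ j)) ^ α j
          = ∏ i, (if i = j1 then (1 : K) else z' i) ^ α (τ.symm i) := by
        rw [← Equiv.prod_comp τ (fun i => (if i = j1 then (1 : K) else z' i) ^ α (τ.symm i))]
        apply Finset.prod_congr rfl
        intro j _
        rw [τ.symm_apply_apply]
        by_cases hj : j = j0
        · rw [if_pos hj, if_pos (by rw [hj, hτ])]
        · rw [if_neg hj, if_neg]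
          rw [← hτ]
          exact fun h => hj (τ.injective h)
      have k4 : ∏ i, z' i ^ (φ α i)
          = z' j1 ^ (wt w α - W).toNat * ∏ i, (if i = j1 then (1 : K) else z' i) ^ α (τ.symm i) := by
        have k5 : z' j1 ^ (wt w α - W).toNat
            = ∏ i, (if i = j1 then z' j1 ^ (wt w α - W).toNat else (1 : K)) := by
          rw [Finset.prod_ite_eq' Finset.univ j1, if_pos (Finset.mem_univ _)]
        rw [k5, ← Finset.prod_mul_distrib]
        apply Finset.prod_congr rfl
        intro i _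
        rw [hφ]
        by_cases hi : i = j1
        · rw [if_pos hi, if_pos hi, if_pos hi, one_pow, mul_one, hi]
        · rw [if_neg hi, if_neg hi, if_neg hi, one_mul]
      rw [k1, k3, k4, mul_comm (∏ i, (if i = j1 then (1 : K) else z' i) ^ α (τ.symm i)), ← mul_assoc]
      congr 1
      rw [← zpow_natCast, Int.toNat_of_nonneg (by linarith [hWle α hα]), ← zpow_add₀ hT]
      congr 1
      ring
    rw [key]
    ring

theorem hPRI (hBAS : StBAS) (hLPX : StLPX) (hSIG : StSIG) (hPRF : StPRF) : StPRI := by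
  intro K _ _ V r B n L Fr β L' e hc σ hσ k f
  classical
  have hqV : Fr.pr (β k) ∈ V.primes := Fr.pr_mem _
  obtain ⟨β0, hβ0, hβ0q⟩ := hBAS K V r B n L Fr (Fr.pr (β k)) hqV
  obtain ⟨a1, ha1⟩ : ∃ a, a = β0 k := ⟨_, rfl⟩
  have hbl1 : Fr.bl a1 = k := by rw [ha1]; exact hβ0 k
  have ha1q : Fr.pr (β k) ≠ Fr.pr a1 := by rw [ha1]; exact hβ0q k
  have ha1ne : a1 ≠ β k := fun h => ha1q (by rw [h])
  obtain ⟨β', hβ'k, hβ'l⟩ : ∃ β' : Fin r → Fin (n + r), β' k = a1 ∧ ∀ l, l ≠ k → β' l = β l :=
    ⟨Function.update β k a1, Function.update_self _ _ _, fun l hl => Function.update_of_ne hl _ _⟩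
  have hβ' : ∀ l, Fr.bl (β' l) = l := by
    intro l
    by_cases hl : l = k
    · rw [hl, hβ'k]; exact hbl1
    · rw [hβ'l l hl]; exact hc.base l
  have hβinj : ∀ l, β k = β l → l = k := by
    intro l h1
    rw [← hc.base l, ← h1, hc.base k]
  have hβ'q : ∀ l, Fr.pr (β k) ≠ Fr.pr (β' l) := by
    intro l
    by_cases hl : l = k
    · rw [hl, hβ'k]; exact ha1q
    · rw [hβ'l l hl]
      exact fun h => hl (hβinj l (Fr.pr_inj h))
  obtain ⟨L2, e2, hc2⟩ := hLPX K V r B n L Fr β' hβ'
  obtain ⟨σ2, hσ2⟩ := hSIG K V r B n L Fr β' L2 e2 hc2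
  obtain ⟨P, hP, hPq⟩ := (hPRF K V r B n L Fr β' L2 e2 hc2 σ2 hσ2).1 (Fr.pr (β k)) hqV hβ'q
  obtain ⟨j1, hj1⟩ : ∃ j, e2 j = β k :=
    (hc2.range (β k)).2 (by rw [hc.base k, hβ'k]; exact fun h => ha1ne h.symm)
  obtain ⟨j0, hj0⟩ : ∃ j, e j = a1 := (hc.range a1).2 (by rw [hbl1]; exact ha1ne)
  have hβk : ∀ j, e j ≠ β k := by
    intro j h
    exact (hc.range (β k)).1 ⟨j, h⟩ (by rw [hc.base k])
  have hT1 : L2.z j1 = Fr.g (β k) / Fr.g a1 := by
    rw [hc2.z_eq j1, hj1, hc.base k, hβ'k]
  have hT0 : L2.z j1 ≠ 0 := by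
    rw [hT1]
    exact div_ne_zero (Fr.ne _) (Fr.ne _)
  have hTord : (Fr.pr (β k)).ord (L2.z j1) = 1 := by
    rw [hT1, PRI_div _ (Fr.ne _) (Fr.ne _)]
    have h1 := Fr.div_self (β k)
    have h2 := Fr.div_other a1 _ hqV ha1q
    rw [hc.base k] at h1
    rw [hbl1] at h2
    linarith
  -- the bijection of the coordinates
  have ht : ∀ j, ∃ i, (j = j0 → i = j1) ∧ (j ≠ j0 → e2 i = e j) := by
    intro j
    by_cases hj : j = j0
    · exact ⟨j1, fun _ => rfl, fun h => absurd hj h⟩
    · have h1 : e j ≠ β' (Fr.bl (e j)) := by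
        by_cases hb : Fr.bl (e j) = k
        · rw [hb, hβ'k, ← hj0]
          exact fun h => hj (hc.inj h)
        · rw [hβ'l _ hb]
          exact (hc.range (e j)).1 ⟨j, rfl⟩
      obtain ⟨i, hi⟩ := (hc2.range (e j)).2 h1
      exact ⟨i, fun h => absurd h hj, fun _ => hi⟩
  choose t ht0 ht1 using ht
  have htinj : Function.Injective t := by
    intro j j' h
    by_cases hj : j = j0
    · by_cases hj' : j' = j0
      · rw [hj, hj']
      · exfalso
        have h1 : t j = j1 := ht0 j hj
        have h2 := ht1 j' hj'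
        rw [← h, h1, hj1] at h2
        exact hβk j' h2.symm
    · by_cases hj' : j' = j0
      · exfalso
        have h1 : t j' = j1 := ht0 j' hj'
        have h2 := ht1 j hj
        rw [h, h1, hj1] at h2
        exact hβk j h2.symm
      · apply hc.inj
        rw [← ht1 j hj, ← ht1 j' hj', h]
  let τ : Equiv.Perm (Fin n) := Equiv.ofBijective t (Finite.injective_iff_bijective.1 htinj)
  have hτ : ∀ j, τ j = t j := fun j => rfl
  let w : Fin n → ℤ := fun j => if Fr.bl (e j) = k then (-1 : ℤ) else 0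
  have hwdef : ∀ j, w j = if Fr.bl (e j) = k then (-1 : ℤ) else 0 := fun j => rfl
  have hw0 : w j0 = -1 := by rw [hwdef, hj0, if_pos hbl1]
  have hz : ∀ j, L'.z j = (if j = j0 then 1 else L2.z (τ j)) * L2.z j1 ^ (w j) := by
    intro j
    by_cases hj : j = j0
    · rw [if_pos hj, one_mul, hj, hw0, hc.z_eq, hj0, hbl1, hT1, zpow_neg, zpow_one, inv_div]
    · rw [if_neg hj, hτ, hc.z_eq, hc2.z_eq (t j), ht1 j hj]
      by_cases hb : Fr.bl (e j) = k
      · rw [hwdef, if_pos hb, hb, hβ'k, hT1, zpow_neg, zpow_one, inv_div]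
        have h1 := Fr.ne a1
        have h2 := Fr.ne (β k)
        field_simp
      · rw [hwdef, if_neg hb, zpow_zero, mul_one, hβ'l _ hb]
  -- the order of a polynomial which is not divisible by the coordinate
  obtain ⟨hp1, hp2, hp3⟩ := hPad n P hP
  obtain ⟨-, -, -, hx4⟩ := hExt n (fun p => (multiplicity P p : ℤ))
    (fun p q hp hq => by
      have := hp1 p q hp hq
      show ((multiplicity P (p * q) : ℕ) : ℤ) = multiplicity P p + multiplicity P q
      rw [this]
      push_cast
      ring)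
    (fun p q hp hq hpq => by
      have := hp2 p q hp hq hpq
      show min ((multiplicity P p : ℕ) : ℤ) ((multiplicity P q : ℕ) : ℤ)
        ≤ ((multiplicity P (p + q) : ℕ) : ℤ)
      exact_mod_cast this)
  have hpad : ∀ p : Pn n, p ≠ 0 →
      (Fr.pr (β k)).ord (aeval L2.z p) = (multiplicity P p : ℤ) := by
    intro p hp
    rw [← PRI_aeval σ2 L2.z hσ2 p, hPq]
    exact hx4 p hp
  have hX0 : (X j1 : Pn n) ≠ 0 := X_ne_zero _
  have hPX : P ∣ (X j1 : Pn n) := by
    rw [hp3 _ hX0]
    have h1 := hpad _ hX0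
    rw [aeval_X, hTord] at h1
    omega
  have hXirr : Irreducible (X j1 : Pn n) := MvPolynomial.X_prime.irreducible
  have hassoc : Associated P (X j1 : Pn n) := hP.associated_of_dvd hXirr hPX
  have hpoly : ∀ p : Pn n, p ≠ 0 →
      (Fr.pr (β k)).ord (σ (algebraMap (Pn n) (Kn n) p)) = monO w p := by
    intro p hp
    obtain ⟨G, hG, hpG⟩ := PRI_core L'.z L2.z j0 j1 τ (by rw [hτ]; exact ht0 j0 rfl) w hw0 hT0 hz
      p hp
    have hG0 : G ≠ 0 := by
      rintro rfl
      exact hG (dvd_zero _)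
    have hm : multiplicity P G = 0 := by
      have h1 := hp3 G hG0
      have h2 : ¬ P ∣ G := fun h => hG (hassoc.dvd_iff_dvd_left.1 h)
      rw [h1] at h2
      omega
    have hGne : aeval L2.z G ≠ 0 := by
      rw [← PRI_aeval σ2 L2.z hσ2 G]
      intro h
      have h3 : algebraMap (Pn n) (Kn n) G = 0 := (map_eq_zero_iff σ2 σ2.injective).1 h
      exact hG0 ((map_eq_zero_iff _ (IsFractionRing.injective (Pn n) (Kn n))).1 h3)
    rw [PRI_aeval σ L'.z hσ p, hpG, (Fr.pr (β k)).ord_mul _ _ (zpow_ne_zero _ hT0) hGne,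
      PRI_zpow _ hT0, hTord, hpad G hG0, hm]
    simp
  -- quotients
  obtain ⟨hm1, hm2⟩ := hMon n w
  obtain ⟨hy1, hy2, hy3, hy4⟩ := hExt n (monO w) hm1 hm2
  show (Fr.pr (β k)).ord (σ f) = extOrd (monO w) f
  by_cases hf : f = 0
  · rw [hf, map_zero, (Fr.pr (β k)).ord_zero, hy1]
  obtain ⟨a, b, hb, hab⟩ := IsFractionRing.div_surjective (A := Pn n) f
  have hb0 : b ≠ 0 := nonZeroDivisors.ne_zero hb
  have hbK : algebraMap (Pn n) (Kn n) b ≠ 0 := by
    intro h
    exact hb0 ((map_eq_zero_iff _ (IsFractionRing.injective (Pn n) (Kn n))).1 h)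
  have hfb : f * algebraMap (Pn n) (Kn n) b = algebraMap (Pn n) (Kn n) a := by
    rw [← hab, div_mul_cancel₀ _ hbK]
  have ha0 : a ≠ 0 := by
    rintro rfl
    rw [map_zero] at hfb
    rcases mul_eq_zero.1 hfb with h | h
    · exact hf h
    · exact hbK h
  have h1 := hy2 f _ hf hbK
  rw [hfb, hy4 a ha0, hy4 b hb0] at h1
  have h2 := (Fr.pr (β k)).ord_mul (σ f) (σ (algebraMap (Pn n) (Kn n) b))
    ((map_ne_zero_iff σ σ.injective).2 hf) ((map_ne_zero_iff σ σ.injective).2 hbK)
  rw [← map_mul, hfb, hpoly a ha0, hpoly b hb0] at h2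
  linarith

end Pool.Agent.Helper18.GX
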